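import Pool.Agent.L0h41.PP.A
import Pool.Agent.L0h41.QN.E

set_option autoImplicit false

/-!
# Positive proportion: the lower bound for the number of good integers
-/

namespace Pool.Agent.L0h41.PP

open Finset Filter
open Pool.Agent.W123.RP Pool.Agent.H373R2.T7 Pool.Agent.W123.RU Pool.Agent.TH464.PO Pool.Agent.TH464.PW
open Pool.Agent.Y879.AP
open Pool.Agent.R490.P3c (lam)
open Pool.Agent.R490.P3g (cheb WB_le_one)
open Pool.Agent.R490.P3h (sqrt_xx choose_m)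
open Pool.Agent.R490.Mean (y_ge pow_le)
open Pool.Agent.W23.DC Pool.Agent.Y882 Pool.Agent.Y882.KW
open Pool.Agent.L0h41.LW Pool.Agent.L0h41.QN

/-- Cauchy–Schwarz: many large values -/
lemma cs_count (S : Finset ℕ) (g : ℕ → ℝ) (G t W : ℝ) (hG : 0 ≤ G)
    (ht0 : 0 ≤ t) (h1 : G ≤ ∑ n ∈ S, g n) (ht : t * S.card ≤ G / 2) (hW : ∑ n ∈ S, g n ^ 2 ≤ W) :
    (G / 2) ^ 2 ≤ ((S.filter (fun n => t ≤ g n)).card : ℝ) * W := by
  have h2 := sum_filter_add_sum_filter_not S (fun n => t ≤ g n) g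
  have h3 : ∑ n ∈ S.filter (fun n => ¬ t ≤ g n), g n ≤ t * S.card := by
    have h4 : ∑ n ∈ S.filter (fun n => ¬ t ≤ g n), g n ≤ ∑ n ∈ S.filter (fun n => ¬ t ≤ g n), t := by
      apply sum_le_sum
      intro n hn
      exact (not_le.1 (mem_filter.1 hn).2).le
    refine h4.trans ?_
    rw [sum_const, nsmul_eq_mul, mul_comm]
    apply mul_le_mul_of_nonneg_left _ ht0
    exact_mod_cast card_filter_le _ _
  have h5 : G / 2 ≤ ∑ n ∈ S.filter (fun n => t ≤ g n), g n := by linarith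
  have h6 := sq_sum_le_card_mul_sum_sq (s := S.filter (fun n => t ≤ g n)) (f := g)
  have h7 : ∑ n ∈ S.filter (fun n => t ≤ g n), g n ^ 2 ≤ W := by
    refine le_trans ?_ hW
    exact sum_le_sum_of_subset_of_nonneg (filter_subset _ _) (fun n _ _ => sq_nonneg _)
  calc (G / 2) ^ 2 ≤ (∑ n ∈ S.filter (fun n => t ≤ g n), g n) ^ 2 := pow_le_pow_left₀ (by positivity) h5 2
    _ ≤ _ := h6
    _ ≤ _ := mul_le_mul_of_nonneg_left h7 (Nat.cast_nonneg _)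

open Classical in
/-- the weight of the good members -/
noncomputable def gP (F : ℕ → ℕ → ℕ) (α : ℕ → ℝ) (J : Finset ℕ) (X R y m : ℕ) (ζ : ℝ) : ℝ :=
  ∑ j ∈ GoodG F J X R m ζ, α j * rh (F j) y m

lemma gP_nonneg (F : ℕ → ℕ → ℕ) (α : ℕ → ℝ) (J : Finset ℕ) (hα : ∀ j ∈ J, 0 ≤ α j) (X R y m : ℕ) (ζ : ℝ) :
    0 ≤ gP F α J X R y m ζ := by
  classical
  unfold gP
  apply sum_nonneg
  intro j hj
  exact mul_nonneg (hα j (mem_filter.1 hj).1) (rh_nonneg _ _ _)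

lemma gP_le_WG (F : ℕ → ℕ → ℕ) (α : ℕ → ℝ) (J : Finset ℕ) (hα : ∀ j ∈ J, 0 ≤ α j) (X R y m : ℕ) (ζ : ℝ) :
    gP F α J X R y m ζ ≤ WG F α J y m := by
  classical
  unfold gP WG GoodG
  apply sum_le_sum_of_subset_of_nonneg (filter_subset _ _)
  intro j hj _
  exact mul_nonneg (hα j hj) (rh_nonneg _ _ _)

lemma gP_le_good (F : ℕ → ℕ → ℕ) (α : ℕ → ℝ) (J : Finset ℕ) (hα : ∀ j ∈ J, 0 ≤ α j) (X R y m : ℕ) (ζ : ℝ) :
    gP F α J X R y m ζ ≤ ∑ j ∈ GoodG F J X R m ζ, α j := by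
  classical
  unfold gP
  apply sum_le_sum
  intro j hj
  exact mul_le_of_le_one_right (hα j (mem_filter.1 hj).1) (rh_le _ _ _)

set_option maxHeartbeats 4000000 in
open Classical in
/-- the pointwise inequality -/
theorem pointP (F : ℕ → ℕ → ℕ) (α : ℕ → ℝ) (J : Finset ℕ) (hα : ∀ j ∈ J, 0 ≤ α j) (X : ℕ) (hX : 2 ≤ X)
    (r R y Z L : ℕ) (hy : y = ⌊(X : ℝ) ^ (1 / (r : ℝ))⌋₊)
    (ζ υ lm S : ℝ) (hζυ : ζ ≤ υ) (hυ0 : 0 < υ)
    (hυ1 : υ ≤ 1) (hlam : 0 < lm) (hr : 1 / lm + S / υ ≤ R + 1) (c : Finset ℕ → ℝ) (κ : ℕ → ℝ) (κ0 : ℝ)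
    (hκ : ∀ j ∈ J, κ0 ≤ κ j)
    (hc : ∀ N : ℕ, VV (pr X (1 / (r : ℝ)) υ) c (fun p => if p ∣ N then 1 else 0) ≤
      WB X (1 / (r : ℝ)) ζ υ lm (lm / υ) N)
    (hS : ∀ j ∈ J, ∀ m ∈ Ioc Z (Z + L), 1 ≤ F j m ∧ ((F j m : ℕ) : ℝ) ≤ (X : ℝ) ^ S)
    (m : ℕ) (hm : m ∈ Ioc Z (Z + L)) :
    XG F α J (PP X y (1 / (r : ℝ)) υ) (fun j U => c U - if U = ∅ then κ j else 0) y m +
      κ0 * WG F α J y m ≤ gP F α J X R y m ζ +
      (if ∃ j ∈ J, ∃ p ∈ pr X ζ υ, y < p ∧ p ^ 2 ∣ F j m then ∑ j ∈ J, α j else 0) := by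
  obtain ⟨P, hP⟩ : ∃ P, P = PP X y (1 / (r : ℝ)) υ := ⟨_, rfl⟩
  rw [← hP]
  have hlam2 : ∀ (k : ℝ) (n : ℕ), lam P (fun U => c U - if U = ∅ then k else 0) n = lam P c n - k := by
    intro k n
    unfold lam
    have e1 : ∀ U ∈ P.powerset, (c U - if U = ∅ then k else 0) * (if (∏ p ∈ U, p) ∣ n then (1 : ℝ) else 0) =
        c U * (if (∏ p ∈ U, p) ∣ n then (1 : ℝ) else 0) - (if U = ∅ then k else 0) := by
      intro U _
      by_cases h : U = ∅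
      · subst h
        simp
      · rw [if_neg h, sub_zero, sub_zero]
    rw [sum_congr rfl e1, sum_sub_distrib, sum_ite_eq', if_pos (empty_mem_powerset P)]
  have hNy : ∀ j ∈ J, Sf (DQ (F j)) y m → ∀ p : ℕ, p.Prime → p ≤ y → ¬ p ∣ F j m := by
    intro j _ hr1 p hp hpy hd
    exact hr1 p (mem_pz.2 ⟨hpy, hp⟩) hd
  have h3 : ∀ j ∈ J, Sf (DQ (F j)) y m → lam P c (F j m) ≤ 1 := by
    intro j hj hr1
    have h4 := hc (F j m)
    rw [VV_ind X y _ _ c _ (hNy j hj hr1), ← hP] at h4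
    refine h4.trans (WB_le_one X _ ζ υ lm (lm / υ) (by positivity) ?_ _)
    rw [div_mul_cancel₀ _ hυ0.ne']
  have e0 : XG F α J P (fun j U => c U - if U = ∅ then κ j else 0) y m + κ0 * WG F α J y m =
      ∑ j ∈ J, (α j * xG (F j) P (fun U => c U - if U = ∅ then κ j else 0) y m +
        κ0 * (α j * rh (F j) y m)) := by
    unfold XG WG
    rw [mul_sum, ← sum_add_distrib]
  rw [e0]
  by_cases hsq : ∃ j ∈ J, ∃ p ∈ pr X ζ υ, y < p ∧ p ^ 2 ∣ F j m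
  · rw [if_pos hsq]
    have h1 : ∑ j ∈ J, (α j * xG (F j) P (fun U => c U - if U = ∅ then κ j else 0) y m +
        κ0 * (α j * rh (F j) y m)) ≤ ∑ j ∈ J, α j := by
      apply sum_le_sum
      intro j hj
      have hαj := hα j hj
      have hκj := hκ j hj
      unfold xG
      rw [hlam2]
      by_cases hr1 : Sf (DQ (F j)) y m
      · have e1 : rh (F j) y m = 1 := by unfold rh; rw [if_pos hr1]
        rw [e1, one_mul, mul_one]
        have h4 := h3 j hj hr1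
        nlinarith
      · have e1 : rh (F j) y m = 0 := by unfold rh; rw [if_neg hr1]
        rw [e1, zero_mul, mul_zero, mul_zero, add_zero]
        exact hαj
    linarith [gP_nonneg F α J hα X R y m ζ]
  · rw [if_neg hsq, add_zero]
    unfold gP GoodG
    rw [sum_filter]
    apply sum_le_sum
    intro j hj
    have hαj := hα j hj
    have hκj := hκ j hj
    unfold xG
    rw [hlam2]
    by_cases hr1 : Sf (DQ (F j)) y m
    · have e1 : rh (F j) y m = 1 := by unfold rh; rw [if_pos hr1]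
      rw [e1, one_mul, mul_one]
      have h4 := h3 j hj hr1
      by_cases hpos : 0 < lam P c (F j m)
      · have hdet : (F j m).primeFactorsList.length ≤ R ∧
            ∀ p : ℕ, p.Prime → p ∣ F j m → (X : ℝ) ^ ζ ≤ p := by
          have hSj := hS j hj m hm
          apply detect X hX r R ζ υ lm S hζυ hυ0 hυ1 hlam hr c (F j m) (by omega) hSj.2
          · exact hc _
          · rw [← hy]
            exact hNy j hj hr1
          · rw [← hy, ← hP]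
            exact hpos
          · intro p hp hd
            refine hsq ⟨j, hj, p, hp, ?_, hd⟩
            by_contra hle
            exact hNy j hj hr1 p (mem_pr.1 hp).2.1 (not_lt.1 hle) ((Dvd.intro_left (p ^ 1) (by ring)).trans hd)
        rw [if_pos hdet]
        nlinarith
      · push Not at hpos
        have h5 : (0 : ℝ) ≤ (if (F j m).primeFactorsList.length ≤ R ∧
            ∀ p : ℕ, p.Prime → p ∣ F j m → (X : ℝ) ^ ζ ≤ p then α j else 0) := by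
          split_ifs
          · exact hαj
          · exact le_rfl
        have : α j * (lam P c (F j m) - κ j) + κ0 * α j ≤ 0 := by nlinarith
        linarith
    · have e1 : rh (F j) y m = 0 := by unfold rh; rw [if_neg hr1]
      rw [e1, zero_mul, mul_zero, mul_zero, add_zero]
      split_ifs <;> simp

open Classical in
/-- the set of the good `m` -/
noncomputable def GoodN (F : ℕ → ℕ → ℕ) (α : ℕ → ℝ) (J : Finset ℕ) (X R Z L : ℕ) (ζ t : ℝ) : Finset ℕ :=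
  (Ioc Z (Z + L)).filter (fun m => t ≤ ∑ j ∈ GoodG F J X R m ζ, α j)

set_option maxHeartbeats 4000000 in
open Classical in
/-- one scale -/
theorem oneP (F : ℕ → ℕ → ℕ) (α : ℕ → ℝ) (J : Finset ℕ) (bad : ℕ → ℕ → Prop) (c d X y : ℕ)
    (hF : FamG F α J bad c d y) (θ τ ζ υ lm S f0 A κ0 γ : ℝ) (R r m R0 : ℕ)
    (hζ : 0 < ζ) (hζυ : ζ ≤ υ) (hυτ : υ < τ) (hlm : 0 < lm) (hτθ : τ < θ) (hθ1 : θ ≤ 1)
    (hf0 : 0 < f0) (hr2 : 2 ≤ r) (hrζ : 1 / (r : ℝ) ≤ ζ) (hm1 : 1 ≤ m) (hγ : γ = θ - τ)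
    (hA : A = (1 + lm) * (1 + 3 * r)) (hκ0 : κ0 = f0 / r)
    (hr : 1 / lm + S / υ ≤ R + 1)
    (Z L : ℕ) (hX : 2 ≤ X) (hy : y = ⌊(X : ℝ) ^ (1 / (r : ℝ))⌋₊)
    (hXL : (X : ℝ) ^ θ ≤ L)
    (cL : Finset ℕ → ℝ) (hb1 : ∀ U, |cL U| ≤ 1 + lm)
    (hb2 : ∀ U ⊆ pr X (1 / (r : ℝ)) υ, cL U ≠ 0 → ((∏ p ∈ U, p : ℕ) : ℝ) ≤ (X : ℝ) ^ τ)
    (hb3 : ∀ N : ℕ, VV (pr X (1 / (r : ℝ)) υ) cL (fun p => if p ∣ N then 1 else 0) ≤
      WB X (1 / (r : ℝ)) ζ υ lm (lm / υ) N)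
    (hMer1 : ∀ j ∈ J, Mer (pr X (1 / (r : ℝ)) υ) (tt X) (gg (F j) y) (1 / (r : ℝ)) υ 1)
    (hb4 : ∀ j ∈ J, 1 / (r : ℝ) * f0 ≤ VV (pr X (1 / (r : ℝ)) υ) cL (gg (F j) y))
    (hS : ∀ j ∈ J, ∀ n ∈ Ioc Z (Z + L), 1 ≤ F j n ∧ ((F j n : ℕ) : ℝ) ≤ (X : ℝ) ^ S)
    (hsq : ∀ j ∈ J, ∀ p : ℕ, p.Prime → y < p →
      (((Ioc Z (Z + L)).filter (fun n => p ^ 2 ∣ F j n)).card : ℝ) ≤ c * ((L : ℝ) / (p : ℝ) ^ 2 + 1))
    (x B s : ℝ) (hx0 : 0 < x) (hxd : x = V1G F α J y) (hB0 : 0 ≤ B) (hαB : ∑ j ∈ J, α j ≤ B * x)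
    (hJB : (J.card : ℝ) ≤ B) (hs0 : 0 ≤ s) (hs : s ≤ (X : ℝ) ^ (γ / 2))
    (Hcnt : ∀ j ∈ J, ∀ j' ∈ J,
      |∑ n ∈ Ioc Z (Z + L), rh (F j) y n * rh (F j') y n - (L : ℝ) * Vq (QPP (F j) (F j')) y| ≤
        (1 / 2) ^ m * ((L : ℝ) * Vq (QPP (F j) (F j')) y) + s)
    (Hfst : ∀ (P : Finset ℕ) (a : ℕ → Finset ℕ → ℝ) (B1 : ℝ),
      (∀ p ∈ P, p.Prime ∧ y < p) → (∀ j ∈ J, ∀ U, |a j U| ≤ A) →
      (∀ j ∈ J, ∀ U ⊆ P, a j U ≠ 0 → ∏ p ∈ U, p ≤ ⌊(X : ℝ) ^ τ⌋₊) →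
      (∀ j ∈ J, ∑ U ∈ P.powerset, a j U * wt (F j) U = 0) →
      (∀ j ∈ J, Pi1 (F j) P ≤ B1) →
      |∑ n ∈ Ioc Z (Z + L), XG F α J P a y n| ≤
        (1 / 2) ^ m * (L * V1G F α J y) * (A * B1) +
          (∑ j ∈ J, α j) * (s * (A * ((c : ℝ) ^ R0 * (⌊(X : ℝ) ^ τ⌋₊ : ℕ)))))
    (hm : (1 / 2) ^ m * (A * (3 * r)) ≤ κ0 / 16)
    (hE1 : 64 * c / κ0 * B ^ 2 ≤ (X : ℝ) ^ ζ)
    (hE2 : (64 * c / κ0 + d + 1) * B ^ 2 ≤ (X : ℝ) ^ (γ / 2))
    (hE3 : (32 + 16 * (A * (c : ℝ) ^ R0) / κ0) * B ≤ (X : ℝ) ^ (γ / 2)) (h4ζ : 4 ≤ (X : ℝ) ^ ζ) :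
    (κ0 * (x / 8)) ^ 2 * L ≤ ((GoodN F α J X R Z L ζ (κ0 * (x / 8))).card : ℝ) *
      (2 * d * S2G F α J y + 2 * V2G F α J bad y + x ^ 2) := by
  have hX1 : (1 : ℝ) ≤ X := by exact_mod_cast (by omega : 1 ≤ X)
  have hX0 : (0 : ℝ) < X := by linarith
  have hL0 : (0 : ℝ) < L := lt_of_lt_of_le (by positivity) hXL
  have hτ0 : 0 < τ := by linarith
  have hυ0 : 0 < υ := by linarith
  have hυ1 : υ ≤ 1 := by linarith
  have hrυ : 1 / (r : ℝ) ≤ υ := hrζ.trans hζυ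
  have hrr0 : (0 : ℝ) < r := by exact_mod_cast (by omega : 0 < r)
  have hκ00 : 0 < κ0 := by rw [hκ0]; positivity
  have hA0 : 0 < A := by rw [hA]; positivity
  have hγ0 : 0 < γ := by rw [hγ]; linarith
  have hwts : ∀ j ∈ J, ∃ κ : ℝ, f0 / r ≤ κ ∧
      (∀ U, |cL U - (if U = ∅ then κ else 0)| ≤ (1 + lm) * (1 + 3 * r)) ∧
      (∀ U ⊆ PP X y (1 / (r : ℝ)) υ, cL U - (if U = ∅ then κ else 0) ≠ 0 →
        ∏ p ∈ U, p ≤ ⌊(X : ℝ) ^ τ⌋₊) ∧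
      ∑ U ∈ (PP X y (1 / (r : ℝ)) υ).powerset, (cL U - (if U = ∅ then κ else 0)) * wt (F j) U = 0 :=
    fun j hj => weights (F j) X r y hX hr2 τ υ lm f0 (1 + lm) hτ0 hυ1 hrυ rfl hlm (hMer1 j hj) cL
      hb1 hb2 (hb4 j hj)
  choose! κ hκlow haA haD hasum using hwts
  rw [← hκ0] at hκlow
  rw [← hA] at haA
  have hsP := fun j (hj : j ∈ J) => sumP (F j) X y r hr2 υ hυ1 hrυ (hMer1 j hj)
  have hpt := fun (n : ℕ) (hn : n ∈ Ioc Z (Z + L)) =>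
    pointP F α J hF.α0 X hX r R y Z L hy ζ υ lm S hζυ hυ0 hυ1 hlm hr cL κ κ0 hκlow hb3 hS n hn
  obtain ⟨a, ha⟩ : ∃ a : ℕ → Finset ℕ → ℝ, a = fun j U => cL U - if U = ∅ then κ j else 0 := ⟨_, rfl⟩
  obtain ⟨P, hP⟩ : ∃ P, P = PP X y (1 / (r : ℝ)) υ := ⟨_, rfl⟩
  rw [← hP] at hsP haD hasum
  rw [← hP, ← ha] at hpt
  have haA' : ∀ j ∈ J, ∀ U, |a j U| ≤ A := by rw [ha]; exact haA
  have haD' : ∀ j ∈ J, ∀ U ⊆ P, a j U ≠ 0 → ∏ p ∈ U, p ≤ ⌊(X : ℝ) ^ τ⌋₊ := by rw [ha]; exact haD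
  have hasum' : ∀ j ∈ J, ∑ U ∈ P.powerset, a j U * wt (F j) U = 0 := by rw [ha]; exact hasum
  have hPp : ∀ p ∈ P, p.Prime ∧ y < p := by
    intro p hp
    rw [hP] at hp
    exact PP_mem hp
  have hfst := Hfst P a (3 * r) hPp haA' haD' hasum' (fun j hj => (hsP j hj).2)
  obtain ⟨T, hT⟩ : ∃ T : ℝ, T = ∑ j ∈ J, α j := ⟨_, rfl⟩
  have hT0 : 0 ≤ T := by rw [hT]; exact sum_nonneg hF.α0
  rw [← hT] at hαB hfst
  rw [← hxd] at hfst
  simp only [← hT] at hpt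
  have hh1 : ((1 : ℝ) / 2) ^ m ≤ 1 / 2 := by
    calc ((1 : ℝ) / 2) ^ m ≤ (1 / 2) ^ 1 := pow_le_pow_of_le_one (by norm_num) (by norm_num) hm1
      _ = 1 / 2 := pow_one _
  have hW1 := firstW F α J y Z L ((1 / 2) ^ m) s hF.α0 Hcnt
  rw [← hT, ← hxd] at hW1
  have hW2 := secondW hF Z L ((1 / 2) ^ m) s hs0 (by linarith) Hcnt
  rw [← hT] at hW2
  have hsqc := sqP F J c X y Z L ζ υ hX h4ζ hsq
  obtain ⟨Q, hQ⟩ : ∃ Q : ℝ, Q = (((Ioc Z (Z + L)).filter (fun m => ∃ j ∈ J, ∃ p ∈ pr X ζ υ, y < p ∧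
    p ^ 2 ∣ F j m)).card : ℝ) := ⟨_, rfl⟩
  rw [← hQ] at hsqc
  -- powers of X
  obtain ⟨g, hg⟩ : ∃ g : ℝ, g = (X : ℝ) ^ (γ / 2) := ⟨_, rfl⟩
  rw [← hg] at hs hE2 hE3
  have hg1 : 1 ≤ g := by rw [hg]; exact Real.one_le_rpow hX1 (by linarith)
  have hg0 : 0 < g := by linarith
  have hXτ1 : (1 : ℝ) ≤ (X : ℝ) ^ τ := Real.one_le_rpow hX1 hτ0.le
  have hgτ : g * (X : ℝ) ^ τ * g ≤ L := by
    refine le_trans (le_of_eq ?_) hXL
    rw [hg, ← Real.rpow_add hX0, ← Real.rpow_add hX0]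
    congr 1
    rw [hγ]
    ring
  have hgg : g * g ≤ L := by
    refine le_trans ?_ hgτ
    have := mul_le_mul_of_nonneg_left hXτ1 hg0.le
    calc g * g = g * 1 * g := by ring
      _ ≤ _ := mul_le_mul_of_nonneg_right this hg0.le
  have hXυ : (X : ℝ) ^ υ ≤ (X : ℝ) ^ τ := Real.rpow_le_rpow_of_exponent_le hX1 hυτ.le
  have hXυ0 : 0 ≤ (X : ℝ) ^ υ := by positivity
  -- the four error terms
  have F1 : T * s ≤ L * x / 32 := by
    have a1 : 32 * B ≤ g := by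
      refine le_trans ?_ hE3
      apply mul_le_mul_of_nonneg_right _ hB0
      have : 0 ≤ 16 * (A * (c : ℝ) ^ R0) / κ0 := by positivity
      linarith
    calc T * s ≤ (B * x) * g := mul_le_mul hαB hs hs0 (by positivity)
      _ = (32 * B) * g * x / 32 := by ring
      _ ≤ g * g * x / 32 := by gcongr
      _ ≤ L * x / 32 := by gcongr
  have F2 : Q * T ≤ κ0 * (L * x) / 16 := by
    have hXζ : 0 < (X : ℝ) ^ ζ := by positivity
    have a0 : Q ≤ B * (2 * (c * L) / (X : ℝ) ^ ζ + c * (X : ℝ) ^ υ) := by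
      refine hsqc.trans ?_
      exact mul_le_mul_of_nonneg_right hJB (by positivity)
    have a1 : Q * T ≤ B * (2 * (c * L) / (X : ℝ) ^ ζ + c * (X : ℝ) ^ υ) * (B * x) :=
      mul_le_mul a0 hαB hT0 (by positivity)
    have a2 : 64 * (c : ℝ) * B ^ 2 ≤ κ0 * (X : ℝ) ^ ζ := by
      rw [div_mul_eq_mul_div, div_le_iff₀ hκ00] at hE1
      linarith
    have a3 : 2 * (c * L) / (X : ℝ) ^ ζ * B ^ 2 ≤ κ0 * L / 32 := by
      rw [div_mul_eq_mul_div, div_le_iff₀ hXζ]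
      calc 2 * (c * (L : ℝ)) * B ^ 2 = (64 * c * B ^ 2) * L / 32 := by ring
        _ ≤ (κ0 * (X : ℝ) ^ ζ) * L / 32 := by gcongr
        _ = _ := by ring
    have a4 : 64 * (c : ℝ) * B ^ 2 ≤ κ0 * g := by
      have : 64 * c / κ0 * B ^ 2 ≤ g := by
        refine le_trans ?_ hE2
        apply mul_le_mul_of_nonneg_right _ (sq_nonneg _)
        have : (0 : ℝ) ≤ d := Nat.cast_nonneg _
        linarith
      rw [div_mul_eq_mul_div, div_le_iff₀ hκ00] at this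
      linarith
    have a5 : c * (X : ℝ) ^ υ * B ^ 2 ≤ κ0 * L / 32 := by
      calc c * (X : ℝ) ^ υ * B ^ 2 = (64 * c * B ^ 2) * (X : ℝ) ^ υ / 64 := by ring
        _ ≤ (κ0 * g) * (X : ℝ) ^ τ / 64 := by gcongr
        _ = κ0 * (g * (X : ℝ) ^ τ * 1) / 64 := by ring
        _ ≤ κ0 * (g * (X : ℝ) ^ τ * g) / 64 := by gcongr
        _ ≤ κ0 * L / 64 := by gcongr
        _ ≤ κ0 * L / 32 := by
            have : 0 < κ0 * L := by positivity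
            linarith
    calc Q * T ≤ _ := a1
      _ = (2 * (c * L) / (X : ℝ) ^ ζ * B ^ 2 + c * (X : ℝ) ^ υ * B ^ 2) * x := by ring
      _ ≤ (κ0 * L / 32 + κ0 * L / 32) * x := by
          apply mul_le_mul_of_nonneg_right _ hx0.le
          linarith
      _ = _ := by ring
  have F3 : (1 / 2) ^ m * (L * x) * (A * (3 * r)) ≤ κ0 * (L * x) / 16 := by
    have : 0 < (L : ℝ) * x := by positivity
    calc (1 / 2) ^ m * (L * x) * (A * (3 * r)) = ((1 / 2) ^ m * (A * (3 * r))) * (L * x) := by ring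
      _ ≤ (κ0 / 16) * (L * x) := by gcongr
      _ = _ := by ring
  have F4 : T * (s * (A * ((c : ℝ) ^ R0 * (⌊(X : ℝ) ^ τ⌋₊ : ℕ)))) ≤ κ0 * (L * x) / 16 := by
    have hD : ((⌊(X : ℝ) ^ τ⌋₊ : ℕ) : ℝ) ≤ (X : ℝ) ^ τ := Nat.floor_le (by positivity)
    have a2 : 16 * (A * (c : ℝ) ^ R0) / κ0 * B ≤ g := by
      refine le_trans ?_ hE3
      apply mul_le_mul_of_nonneg_right _ hB0
      linarith
    have a3 : 16 * (A * (c : ℝ) ^ R0) * B ≤ κ0 * g := by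
      rw [div_mul_eq_mul_div, div_le_iff₀ hκ00] at a2
      linarith
    calc T * (s * (A * ((c : ℝ) ^ R0 * (⌊(X : ℝ) ^ τ⌋₊ : ℕ)))) ≤
        (B * x) * (g * (A * ((c : ℝ) ^ R0 * (X : ℝ) ^ τ))) := by gcongr
      _ = (16 * (A * (c : ℝ) ^ R0) * B) * (g * (X : ℝ) ^ τ) * x / 16 := by ring
      _ ≤ (κ0 * g) * (g * (X : ℝ) ^ τ) * x / 16 := by gcongr
      _ = κ0 * (g * (X : ℝ) ^ τ * g) * x / 16 := by ring
      _ ≤ κ0 * L * x / 16 := by gcongr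
      _ = _ := by ring
  have F5 : (d + 1) * (T ^ 2 * s) ≤ L * x ^ 2 := by
    have hT2 : T ^ 2 ≤ B ^ 2 * x ^ 2 := by
      rw [← mul_pow]
      exact pow_le_pow_left₀ hT0 hαB 2
    have a1 : ((d : ℝ) + 1) * B ^ 2 ≤ g := by
      refine le_trans ?_ hE2
      apply mul_le_mul_of_nonneg_right _ (sq_nonneg _)
      have : 0 ≤ 64 * c / κ0 := by positivity
      linarith
    calc (d + 1) * (T ^ 2 * s) ≤ (d + 1) * ((B ^ 2 * x ^ 2) * g) := by gcongr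
      _ = (((d : ℝ) + 1) * B ^ 2) * g * x ^ 2 := by ring
      _ ≤ g * g * x ^ 2 := by gcongr
      _ ≤ L * x ^ 2 := by gcongr
  -- the sum of the weights of the good members
  have hsum := sum_le_sum hpt
  rw [sum_add_distrib, sum_add_distrib, ← mul_sum] at hsum
  have e2 : ∑ n ∈ Ioc Z (Z + L), (if ∃ j ∈ J, ∃ p ∈ pr X ζ υ, y < p ∧ p ^ 2 ∣ F j n then T else 0) = Q * T := by
    rw [← sum_filter, sum_const, nsmul_eq_mul, hQ]
  rw [e2] at hsum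
  have hX1' := (abs_le.1 hfst).1
  obtain ⟨G, hG⟩ : ∃ G : ℝ, G = κ0 * (x / 4) * L := ⟨_, rfl⟩
  have hGpos : 0 < G := by rw [hG]; positivity
  have hG1 : G ≤ ∑ n ∈ Ioc Z (Z + L), gP F α J X R y n ζ := by
    have b1 : (1 - (1 / 2 : ℝ) ^ m) * (L * x) ≥ 1 / 2 * (L * x) :=
      mul_le_mul_of_nonneg_right (by linarith) (by positivity)
    have b2 : κ0 * (L * x / 2 - L * x / 32) ≤ κ0 * ∑ n ∈ Ioc Z (Z + L), WG F α J y n :=
      mul_le_mul_of_nonneg_left (by linarith) hκ00.le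
    have b3 : 0 < κ0 * (L * x) := by positivity
    rw [hG]
    nlinarith
  have key := cs_count (Ioc Z (Z + L)) (fun n => gP F α J X R y n ζ) G (κ0 * (x / 8))
    (L * (2 * d * S2G F α J y + 2 * V2G F α J bad y + x ^ 2))
    hGpos.le (by positivity) hG1 (by
      rw [Nat.card_Ioc, show Z + L - Z = L by omega, hG]
      linarith) (by
      have b1 : ∑ n ∈ Ioc Z (Z + L), gP F α J X R y n ζ ^ 2 ≤ ∑ n ∈ Ioc Z (Z + L), WG F α J y n ^ 2 := by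
        apply sum_le_sum
        intro n _
        exact pow_le_pow_left₀ (gP_nonneg F α J hF.α0 X R y n ζ) (gP_le_WG F α J hF.α0 X R y n ζ) 2
      refine b1.trans (hW2.trans ?_)
      nlinarith)
  have hcard : (((Ioc Z (Z + L)).filter (fun n => κ0 * (x / 8) ≤ gP F α J X R y n ζ)).card : ℝ) ≤
      ((GoodN F α J X R Z L ζ (κ0 * (x / 8))).card : ℝ) := by
    have : (Ioc Z (Z + L)).filter (fun n => κ0 * (x / 8) ≤ gP F α J X R y n ζ) ⊆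
        GoodN F α J X R Z L ζ (κ0 * (x / 8)) := by
      intro n hn
      unfold GoodN
      rw [mem_filter] at hn ⊢
      exact ⟨hn.1, hn.2.trans (gP_le_good F α J hF.α0 X R y n ζ)⟩
    exact_mod_cast card_le_card this
  have hnn : 0 ≤ 2 * d * S2G F α J y + 2 * V2G F α J bad y + x ^ 2 := by
    have n1 : 0 ≤ S2G F α J y := by
      unfold S2G
      exact sum_nonneg fun j _ => mul_nonneg (sq_nonneg _) (Vq_nonneg _ _)
    have n2 : 0 ≤ V2G F α J bad y := by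
      unfold V2G
      refine sum_nonneg fun j hj => sum_nonneg fun j' hj' => ?_
      have a1 := hF.α0 j hj
      have a2 := hF.α0 j' hj'
      have a3 := Vq_nonneg (QPP (F j) (F j')) y
      split_ifs <;> positivity
    positivity
  have k2 : (G / 2) ^ 2 ≤ ((GoodN F α J X R Z L ζ (κ0 * (x / 8))).card : ℝ) *
      (L * (2 * d * S2G F α J y + 2 * V2G F α J bad y + x ^ 2)) :=
    key.trans (mul_le_mul_of_nonneg_right hcard (by positivity))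
  have e3 : (G / 2) ^ 2 = ((κ0 * (x / 8)) ^ 2 * L) * L := by rw [hG]; ring
  have e4 : ((GoodN F α J X R Z L ζ (κ0 * (x / 8))).card : ℝ) *
      (L * (2 * d * S2G F α J y + 2 * V2G F α J bad y + x ^ 2)) =
      (((GoodN F α J X R Z L ζ (κ0 * (x / 8))).card : ℝ) *
      (2 * d * S2G F α J y + 2 * V2G F α J bad y + x ^ 2)) * L := by ring
  rw [e3, e4] at k2
  exact le_of_mul_le_mul_right k2 hL0

end Pool.Agent.L0h41.PP
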