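import Pool.Agent.L0h41.QN.D

set_option autoImplicit false

/-!
# Positive proportion: the first moment of the weights at full level
-/

namespace Pool.Agent.L0h41.PP

open Finset Filter
open Pool.Agent.W123.RP Pool.Agent.H373R2.T7 Pool.Agent.W123.RU Pool.Agent.TH464.PO Pool.Agent.TH464.PW
open Pool.Agent.Y879.AP
open Pool.Agent.R490.P3c (lam)
open Pool.Agent.W23.DC Pool.Agent.Y882 Pool.Agent.Y882.KW
open Pool.Agent.L0h41.LW Pool.Agent.L0h41.QN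

lemma sum_x1 (F : ℕ → ℕ) (P : Finset ℕ) (a : Finset ℕ → ℝ) (y Z L : ℕ) :
    ∑ n ∈ Ioc Z (Z + L), xG F P a y n = ∑ U ∈ P.powerset, a U * NG F F y Z L U ∅ := by
  classical
  have h1 : ∀ n, xG F P a y n = ∑ U ∈ P.powerset,
      a U * (if Sf (QPP F F) y n ∧ (∏ p ∈ U, p ∣ F n) ∧ (∏ p ∈ (∅ : Finset ℕ), p ∣ F n) then 1 else 0) := by
    intro n
    unfold xG lam rh
    rw [mul_sum]
    apply sum_congr rfl
    intro U _
    have h0 := sf_QPP F F y n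
    by_cases c1 : Sf (DQ F) y n <;>
      by_cases c3 : (∏ p ∈ U, p ∣ F n) <;>
      simp [h0, c1, c3]
  rw [sum_congr rfl (fun n _ => h1 n), sum_comm]
  apply sum_congr rfl
  intro U _
  rw [← mul_sum]
  congr 1
  unfold NG
  rw [card_filter]
  push_cast
  rfl

set_option maxHeartbeats 4000000 in
/-- **The first moment of a weight, at full level.** -/
theorem firstG (c : ℕ) (hc : 1 ≤ c) : ∃ C0 x0 : ℕ, 1 ≤ C0 ∧ ∀ b : ℕ, C0 ≤ b →
    ∀ x y : ℕ, x0 ≤ y → 1 ≤ y → y ^ (16 * (C0 * b)) ≤ x → ∀ F : ℕ → ℕ, PerB (DQ F) c →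
    ∀ (Z L R0 : ℕ) (P : Finset ℕ) (a : Finset ℕ → ℝ) (A B1 : ℝ) (D : ℕ),
      (∀ p ∈ P, p.Prime ∧ y < p) → (∀ U, |a U| ≤ A) →
      (∀ U ⊆ P, a U ≠ 0 → ∏ p ∈ U, p ≤ D) → D ≤ y ^ R0 →
      ∑ U ∈ P.powerset, a U * wt F U = 0 → Pi1 F P ≤ B1 →
      |∑ n ∈ Ioc Z (Z + L), xG F P a y n| ≤
        (1 / 2) ^ b * (L * Vq (DQ F) y) * (A * B1) + √(x : ℝ) * (A * ((c : ℝ) ^ R0 * D)) := by
  classical
  obtain ⟨C0, x0, hC0, H⟩ := cnt_pairG c hc
  refine ⟨C0, x0, hC0, ?_⟩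
  intro b hb x y hy hy1 hyx F hF Z L R0 P a A B1 D hP hA hD hDy hsum hB1
  have hA0 : 0 ≤ A := (abs_nonneg _).trans (hA ∅)
  rw [sum_x1]
  obtain ⟨M, hM⟩ : ∃ M : ℝ, M = L * Vq (DQ F) y := ⟨_, rfl⟩
  have hM0 : 0 ≤ M := by rw [hM]; exact mul_nonneg (Nat.cast_nonneg _) (Vq_nonneg _ _)
  have hrr0 : ∀ U, 0 ≤ rr F U := fun U => prod_nonneg fun _ _ => Nat.cast_nonneg _
  have hP1 := Pi1_nonneg F P
  have hN : ∀ U ∈ P.powerset, |NG F F y Z L U ∅ - M * wt F U| ≤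
        (1 / 2) ^ b * (M * wt F U) + rr F U * √(x : ℝ) := by
    intro U hU
    have h1 := H b hb x y hy hyx F F hF hF Z L U ∅ (fun p hp => hP p (mem_powerset.1 hU hp)) (by simp)
      (disjoint_empty_right _)
    rw [QPP_self, wt_empty, rr_empty, mul_one, mul_one] at h1
    have e1 : (L : ℝ) * wt F U * Vq (DQ F) y = M * wt F U := by
      rw [hM]
      ring
    rw [e1] at h1
    exact h1
  have e3 : ∑ U ∈ P.powerset, a U * NG F F y Z L U ∅ =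
      M * (∑ U ∈ P.powerset, a U * wt F U) +
      ∑ U ∈ P.powerset, a U * (NG F F y Z L U ∅ - M * wt F U) := by
    rw [mul_sum, ← sum_add_distrib]
    apply sum_congr rfl
    intro U _
    ring
  rw [e3, hsum, mul_zero, zero_add]
  have h2 : |∑ U ∈ P.powerset, a U * (NG F F y Z L U ∅ - M * wt F U)| ≤
      ∑ U ∈ P.powerset, ((1 / 2) ^ b * M * (A * wt F U) + √(x : ℝ) * (|a U| * rr F U)) := by
    refine (abs_sum_le_sum_abs _ _).trans (sum_le_sum fun U hU => ?_)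
    have w1 := wt_nonneg F U
    rw [abs_mul]
    calc |a U| * |NG F F y Z L U ∅ - M * wt F U| ≤
        |a U| * ((1 / 2) ^ b * (M * wt F U) + rr F U * √(x : ℝ)) :=
          mul_le_mul_of_nonneg_left (hN U hU) (abs_nonneg _)
      _ = |a U| * ((1 / 2) ^ b * (M * wt F U)) + √(x : ℝ) * (|a U| * rr F U) := by ring
      _ ≤ A * ((1 / 2) ^ b * (M * wt F U)) + √(x : ℝ) * (|a U| * rr F U) := by
          apply add_le_add _ le_rfl
          exact mul_le_mul_of_nonneg_right (hA U) (by positivity)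
      _ = _ := by ring
  refine h2.trans ?_
  rw [sum_add_distrib, ← mul_sum, ← mul_sum, ← mul_sum]
  apply add_le_add
  · rw [← hM]
    apply mul_le_mul_of_nonneg_left _ (by positivity)
    exact mul_le_mul_of_nonneg_left hB1 hA0
  · apply mul_le_mul_of_nonneg_left _ (Real.sqrt_nonneg _)
    exact sum_abs F c hc hF P y R0 hy1 hP a A D hA hD hDy

/-- the first moment of the total weight -/
theorem firstX (c : ℕ) (hc : 1 ≤ c) : ∃ C0 x0 : ℕ, 1 ≤ C0 ∧ ∀ b : ℕ, C0 ≤ b →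
    ∀ x y : ℕ, x0 ≤ y → 1 ≤ y → y ^ (16 * (C0 * b)) ≤ x →
    ∀ (F : ℕ → ℕ → ℕ) (α : ℕ → ℝ) (J : Finset ℕ), (∀ j ∈ J, PerB (DQ (F j)) c) → (∀ j ∈ J, 0 ≤ α j) →
    ∀ (Z L R0 : ℕ) (P : Finset ℕ) (a : ℕ → Finset ℕ → ℝ) (A B1 : ℝ) (D : ℕ),
      (∀ p ∈ P, p.Prime ∧ y < p) → (∀ j ∈ J, ∀ U, |a j U| ≤ A) →
      (∀ j ∈ J, ∀ U ⊆ P, a j U ≠ 0 → ∏ p ∈ U, p ≤ D) → D ≤ y ^ R0 →
      (∀ j ∈ J, ∑ U ∈ P.powerset, a j U * wt (F j) U = 0) →
      (∀ j ∈ J, Pi1 (F j) P ≤ B1) →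
      |∑ n ∈ Ioc Z (Z + L), XG F α J P a y n| ≤
        (1 / 2) ^ b * (L * V1G F α J y) * (A * B1) +
          (∑ j ∈ J, α j) * (√(x : ℝ) * (A * ((c : ℝ) ^ R0 * D))) := by
  obtain ⟨C0, x0, hC0, H⟩ := firstG c hc
  refine ⟨C0, x0, hC0, ?_⟩
  intro b hb x y hy hy1 hyx F α J hF hα Z L R0 P a A B1 D hP hA hD hDy hsum hB1
  have e1 : ∑ n ∈ Ioc Z (Z + L), XG F α J P a y n =
      ∑ j ∈ J, α j * ∑ n ∈ Ioc Z (Z + L), xG (F j) P (a j) y n := by
    unfold XG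
    rw [sum_comm]
    apply sum_congr rfl
    intro j _
    rw [mul_sum]
  rw [e1]
  refine (abs_sum_le_sum_abs _ _).trans ?_
  have h1 : ∀ j ∈ J, |α j * ∑ n ∈ Ioc Z (Z + L), xG (F j) P (a j) y n| ≤
      (1 / 2) ^ b * L * (A * B1) * (α j * Vq (DQ (F j)) y) +
        α j * (√(x : ℝ) * (A * ((c : ℝ) ^ R0 * D))) := by
    intro j hj
    rw [abs_mul, abs_of_nonneg (hα j hj)]
    have h2 := H b hb x y hy hy1 hyx (F j) (hF j hj) Z L R0 P (a j) A B1 D hP (hA j hj) (hD j hj) hDy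
      (hsum j hj) (hB1 j hj)
    refine (mul_le_mul_of_nonneg_left h2 (hα j hj)).trans (le_of_eq ?_)
    ring
  refine (sum_le_sum h1).trans (le_of_eq ?_)
  rw [sum_add_distrib, ← mul_sum, ← sum_mul]
  unfold V1G
  ring

/-- the first moment of the number of the sifted values -/
lemma firstW (F : ℕ → ℕ → ℕ) (α : ℕ → ℝ) (J : Finset ℕ) (y Z L : ℕ) (h s : ℝ) (hα : ∀ j ∈ J, 0 ≤ α j)
    (H : ∀ j ∈ J, ∀ j' ∈ J,
      |∑ m ∈ Ioc Z (Z + L), rh (F j) y m * rh (F j') y m - (L : ℝ) * Vq (QPP (F j) (F j')) y| ≤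
        h * ((L : ℝ) * Vq (QPP (F j) (F j')) y) + s) :
    (1 - h) * (L * V1G F α J y) - (∑ j ∈ J, α j) * s ≤ ∑ m ∈ Ioc Z (Z + L), WG F α J y m := by
  unfold WG
  rw [sum_comm]
  unfold V1G
  rw [mul_sum, mul_sum, sum_mul, ← sum_sub_distrib]
  apply sum_le_sum
  intro j hj
  rw [← mul_sum]
  have h2 := (abs_le.1 (single F J y Z L h s H j hj)).1
  have h3 := hα j hj
  have h4 : (1 - h) * (L * Vq (DQ (F j)) y) - s ≤ ∑ m ∈ Ioc Z (Z + L), rh (F j) y m := by linarith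
  calc (1 - h) * (L * (α j * Vq (DQ (F j)) y)) - α j * s = α j * ((1 - h) * (L * Vq (DQ (F j)) y) - s) := by ring
    _ ≤ _ := mul_le_mul_of_nonneg_left h4 h3

open Classical in
/-- the second moment of the number of the sifted values -/
lemma secondW {F : ℕ → ℕ → ℕ} {α : ℕ → ℝ} {J : Finset ℕ} {bad : ℕ → ℕ → Prop} {c d y : ℕ}
    (hF : FamG F α J bad c d y) (Z L : ℕ) (h s : ℝ) (hs : 0 ≤ s) (hh : h ≤ 1)
    (H : ∀ j ∈ J, ∀ j' ∈ J,
      |∑ m ∈ Ioc Z (Z + L), rh (F j) y m * rh (F j') y m - (L : ℝ) * Vq (QPP (F j) (F j')) y| ≤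
        h * ((L : ℝ) * Vq (QPP (F j) (F j')) y) + s) :
    ∑ m ∈ Ioc Z (Z + L), WG F α J y m ^ 2 ≤
      L * (2 * d * S2G F α J y + 2 * V2G F α J bad y) + (d + 1) * ((∑ j ∈ J, α j) ^ 2 * s) := by
  obtain ⟨Sα, hSα⟩ : ∃ Sα, Sα = ∑ j ∈ J, α j := ⟨_, rfl⟩
  rw [← hSα]
  unfold WG
  rw [sum_sq_swap]
  have key := split_bad hF (fun j j' => α j * α j' * ∑ n ∈ Ioc Z (Z + L), rh (F j) y n * rh (F j') y n)
    (fun j => α j ^ 2 * ∑ n ∈ Ioc Z (Z + L), rh (F j) y n)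
    (fun j j' => α j * α j' * (Vq (QPP (F j) (F j')) y * (2 * L) + s)) (by
      intro j _
      have : 0 ≤ ∑ n ∈ Ioc Z (Z + L), rh (F j) y n := sum_nonneg fun n _ => rh_nonneg _ _ _
      positivity) (by
      intro j hj j' hj' _
      show α j * α j' * ∑ n ∈ Ioc Z (Z + L), rh (F j) y n * rh (F j') y n ≤ _
      have a1 := hF.α0 j hj
      have a2 := hF.α0 j' hj'
      have h1 : α j * α j' * ∑ n ∈ Ioc Z (Z + L), rh (F j) y n * rh (F j') y n ≤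
          (α j ^ 2 * ∑ n ∈ Ioc Z (Z + L), rh (F j) y n * rh (F j) y n +
            α j' ^ 2 * ∑ n ∈ Ioc Z (Z + L), rh (F j') y n * rh (F j') y n) / 2 := by
        rw [mul_sum, mul_sum, mul_sum, ← sum_add_distrib, sum_div]
        apply sum_le_sum
        intro n _
        nlinarith [sq_nonneg (α j * rh (F j) y n - α j' * rh (F j') y n)]
      refine h1.trans (le_of_eq ?_)
      simp only [rh_sq]) (by
      intro j hj j' hj' hnb
      show α j * α j' * ∑ n ∈ Ioc Z (Z + L), rh (F j) y n * rh (F j') y n ≤ _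
      have a1 := hF.α0 j hj
      have a2 := hF.α0 j' hj'
      apply mul_le_mul_of_nonneg_left _ (by positivity)
      have h1 := (abs_le.1 (H j hj j' hj')).2
      have h3 := Vq_nonneg (QPP (F j) (F j')) y
      have h2 : h * (L * Vq (QPP (F j) (F j')) y) ≤ 1 * (L * Vq (QPP (F j) (F j')) y) :=
        mul_le_mul_of_nonneg_right hh (by positivity)
      linarith)
  refine key.trans ?_
  have g1 := diagG F α J y Z L h s hs hh hF.α0 H
  rw [← hSα] at g1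
  have g2 : ∑ j ∈ J, ∑ j' ∈ J, (if bad j j' then 0 else α j * α j' *
      (Vq (QPP (F j) (F j')) y * (2 * L) + s)) ≤ 2 * (L * V2G F α J bad y) + Sα ^ 2 * s := by
    have e0 : 2 * (L * V2G F α J bad y) = V2G F α J bad y * (2 * L) := by ring
    rw [e0]
    unfold V2G
    have e3 : Sα ^ 2 * s = ∑ j ∈ J, ∑ j' ∈ J, α j * α j' * s := by
      rw [hSα, sq, sum_mul_sum, sum_mul]
      apply sum_congr rfl
      intro j _
      rw [sum_mul]
    rw [e3, sum_mul, ← sum_add_distrib]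
    apply sum_le_sum
    intro j hj
    rw [sum_mul, ← sum_add_distrib]
    apply sum_le_sum
    intro j' hj'
    have a1 := hF.α0 j hj
    have a2 := hF.α0 j' hj'
    split_ifs
    · rw [zero_mul, zero_add]
      positivity
    · rw [mul_add, mul_assoc (α j * α j')]
  have g3 := mul_le_mul_of_nonneg_left g1 (Nat.cast_nonneg d : (0 : ℝ) ≤ d)
  have e7 : (d : ℝ) * (2 * L * S2G F α J y + Sα ^ 2 * s) =
    L * (2 * d * S2G F α J y) + d * (Sα ^ 2 * s) := by ring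
  rw [e7] at g3
  have e8 : (L : ℝ) * (2 * d * S2G F α J y + 2 * V2G F α J bad y) + (d + 1) * (Sα ^ 2 * s) =
    L * (2 * d * S2G F α J y) + d * (Sα ^ 2 * s) + (2 * (L * V2G F α J bad y) + Sα ^ 2 * s) := by ring
  rw [e8]
  linarith

open Classical in
/-- few `m` have a value divisible by the square of a medium prime -/
theorem sqP (F : ℕ → ℕ → ℕ) (J : Finset ℕ) (c X y Z L : ℕ) (ζ υ : ℝ) (hX : 2 ≤ X) (h4 : 4 ≤ (X : ℝ) ^ ζ)
    (hsq : ∀ j ∈ J, ∀ p : ℕ, p.Prime → y < p →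
      (((Ioc Z (Z + L)).filter (fun m => p ^ 2 ∣ F j m)).card : ℝ) ≤ c * ((L : ℝ) / (p : ℝ) ^ 2 + 1)) :
    (((Ioc Z (Z + L)).filter (fun m => ∃ j ∈ J, ∃ p ∈ pr X ζ υ, y < p ∧ p ^ 2 ∣ F j m)).card : ℝ) ≤
      J.card * (2 * (c * L) / (X : ℝ) ^ ζ + c * (X : ℝ) ^ υ) := by
  have hq0 : (0 : ℝ) < X := by exact_mod_cast (by omega : 0 < X)
  have h1 : (((Ioc Z (Z + L)).filter (fun m => ∃ j ∈ J, ∃ p ∈ pr X ζ υ, y < p ∧ p ^ 2 ∣ F j m)).card : ℝ) ≤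
      ∑ j ∈ J, ∑ p ∈ pr X ζ υ,
        (((Ioc Z (Z + L)).filter (fun m => y < p ∧ p ^ 2 ∣ F j m)).card : ℝ) := by
    have h2 : (Ioc Z (Z + L)).filter (fun m => ∃ j ∈ J, ∃ p ∈ pr X ζ υ, y < p ∧ p ^ 2 ∣ F j m) ⊆
        J.biUnion (fun j => (pr X ζ υ).biUnion (fun p =>
          (Ioc Z (Z + L)).filter (fun m => y < p ∧ p ^ 2 ∣ F j m))) := by
      intro n hn
      rw [mem_filter] at hn
      obtain ⟨hn, j, hj, p, hp, hd⟩ := hn
      rw [mem_biUnion]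
      refine ⟨j, hj, ?_⟩
      rw [mem_biUnion]
      exact ⟨p, hp, mem_filter.2 ⟨hn, hd⟩⟩
    have h3 := (card_le_card h2).trans card_biUnion_le
    have h4 : ∑ j ∈ J, ((pr X ζ υ).biUnion (fun p =>
          (Ioc Z (Z + L)).filter (fun m => y < p ∧ p ^ 2 ∣ F j m))).card ≤
        ∑ j ∈ J, ∑ p ∈ pr X ζ υ, ((Ioc Z (Z + L)).filter (fun m => y < p ∧ p ^ 2 ∣ F j m)).card :=
      sum_le_sum fun h _ => card_biUnion_le
    exact_mod_cast h3.trans h4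
  refine h1.trans ?_
  have h5 : ∀ j ∈ J, ∑ p ∈ pr X ζ υ,
      (((Ioc Z (Z + L)).filter (fun m => y < p ∧ p ^ 2 ∣ F j m)).card : ℝ) ≤
      2 * (c * L) / (X : ℝ) ^ ζ + c * (X : ℝ) ^ υ := by
    intro j hj
    have h6 : ∀ p ∈ pr X ζ υ, (((Ioc Z (Z + L)).filter (fun m => y < p ∧ p ^ 2 ∣ F j m)).card : ℝ) ≤
        (c * L) * ((p : ℝ) ^ 2)⁻¹ + c := by
      intro p hp
      have hpp := (mem_pr.1 hp).2.1
      have hp0 : (0 : ℝ) < p := by exact_mod_cast hpp.pos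
      by_cases hyp : y < p
      · have e1 : (Ioc Z (Z + L)).filter (fun m => y < p ∧ p ^ 2 ∣ F j m) =
            (Ioc Z (Z + L)).filter (fun m => p ^ 2 ∣ F j m) := by
          apply filter_congr
          intro m _
          exact ⟨fun h => h.2, fun h => ⟨hyp, h⟩⟩
        rw [e1]
        refine (hsq j hj p hpp hyp).trans (le_of_eq ?_)
        rw [div_eq_mul_inv]
        ring
      · have e1 : (Ioc Z (Z + L)).filter (fun m => y < p ∧ p ^ 2 ∣ F j m) = ∅ := by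
          rw [filter_eq_empty_iff]
          rintro m _ ⟨h, _⟩
          exact hyp h
        rw [e1, card_empty, Nat.cast_zero]
        positivity
    refine (sum_le_sum h6).trans ?_
    rw [sum_add_distrib, ← mul_sum, sum_const, nsmul_eq_mul]
    have h11 := Pool.Agent.R490.LFc.inv_sq X ζ υ hX h4
    have h12 : ((pr X ζ υ).card : ℝ) ≤ (X : ℝ) ^ υ := by
      have q1 : pr X ζ υ ⊆ Ioc 0 ⌊(X : ℝ) ^ υ⌋₊ := by
        intro p hp
        have hpp := (mem_pr.1 hp).2.1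
        rw [mem_Ioc]
        refine ⟨hpp.pos, ?_⟩
        apply Nat.le_floor
        exact ((Pool.Agent.Y882.tt_lt X p υ hX hpp.pos).1 (mem_pr.1 hp).2.2.2).le
      have q2 := card_le_card q1
      rw [Nat.card_Ioc, Nat.sub_zero] at q2
      exact (by exact_mod_cast q2 : ((pr X ζ υ).card : ℝ) ≤ (⌊(X : ℝ) ^ υ⌋₊ : ℕ)).trans
        (Nat.floor_le (by positivity))
    have h13 : (c * (L : ℝ)) * ∑ p ∈ pr X ζ υ, ((p : ℝ) ^ 2)⁻¹ ≤ (c * L) * (2 / (X : ℝ) ^ ζ) :=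
      mul_le_mul_of_nonneg_left h11 (by positivity)
    have h14 : ((pr X ζ υ).card : ℝ) * c ≤ (X : ℝ) ^ υ * c := mul_le_mul_of_nonneg_right h12 (by positivity)
    have e : (c * (L : ℝ)) * (2 / (X : ℝ) ^ ζ) = 2 * (c * L) / (X : ℝ) ^ ζ := by ring
    linarith
  refine (sum_le_card_nsmul _ _ _ h5).trans ?_
  rw [nsmul_eq_mul]

end Pool.Agent.L0h41.PP
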