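import Pool.Agent.L0h41.PP.B

set_option autoImplicit false

/-!
# Positive proportion: the main theorem
-/

namespace Pool.Agent.L0h41.PP

open Finset Filter
open Pool.Agent.W123.RP Pool.Agent.H373R2.T7 Pool.Agent.W123.RU Pool.Agent.TH464.PO Pool.Agent.TH464.PW
open Pool.Agent.Y879.AP
open Pool.Agent.R490.P3c (lam)
open Pool.Agent.R490.P3h (sqrt_xx choose_m)
open Pool.Agent.R490.Mean (y_ge pow_le)
open Pool.Agent.W23.DC Pool.Agent.Y882 Pool.Agent.Y882.KW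
open Pool.Agent.L0h41.LW Pool.Agent.L0h41.QN

/-- the constants -/
lemma exists_cstP (θ τ ζ υ lm f0 : ℝ) (C0 r0 : ℕ) (hζ : 0 < ζ) (hυτ : υ < τ) (hτθ : τ < θ) (hlm : 0 < lm)
    (hf0 : 0 < f0) :
    ∃ m r G0 : ℕ, C0 ≤ m ∧ 1 ≤ m ∧ 2 ≤ r ∧ r = G0 * m ∧ 1 ≤ G0 ∧ 16 * C0 / (θ - τ) ≤ G0 ∧ r0 ≤ r ∧
      1 / (r : ℝ) ≤ ζ ∧ 1 / (r : ℝ) ≤ τ - υ ∧
      (1 / 2) ^ m * ((1 + lm) * (1 + 3 * r) * (3 * r)) ≤ (f0 / r) / 16 := by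
  obtain ⟨G0, hG0⟩ : ∃ G0 : ℕ, G0 = ⌈16 * C0 / (θ - τ)⌉₊ + 1 := ⟨_, rfl⟩
  have hG1 : 1 ≤ G0 := by omega
  have hG2 : 16 * C0 / (θ - τ) ≤ G0 := by
    rw [hG0]
    push_cast
    linarith [Nat.le_ceil (16 * (C0 : ℝ) / (θ - τ))]
  have hG0r : (0 : ℝ) < G0 := by exact_mod_cast hG1
  obtain ⟨m, hm0, hm⟩ := choose_m (192 * (1 + lm) * (G0 : ℝ) ^ 3 / f0) (by positivity) 1 one_pos
    (C0 + 2 + r0 + ⌈1 / ζ⌉₊ + ⌈1 / (τ - υ)⌉₊)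
  have hmr : m ≤ G0 * m := Nat.le_mul_of_pos_left m hG1
  obtain ⟨r, hrdef⟩ : ∃ r : ℕ, r = G0 * m := ⟨_, rfl⟩
  rw [← hrdef] at hmr
  have hr2 : 2 ≤ r := by omega
  have hrr : (2 : ℝ) ≤ r := by exact_mod_cast hr2
  have hr0 : (0 : ℝ) < r := by linarith
  have hm1r : (1 : ℝ) ≤ m := by exact_mod_cast (by omega : 1 ≤ m)
  refine ⟨m, r, G0, by omega, by omega, hr2, hrdef, hG1, hG2, by omega, ?_, ?_, ?_⟩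
  · have h5 : 1 / ζ ≤ r := (Nat.le_ceil _).trans (by exact_mod_cast (by omega : ⌈1 / ζ⌉₊ ≤ r))
    rw [div_le_iff₀ hζ] at h5
    rw [div_le_iff₀ hr0]
    linarith
  · have h5 : 1 / (τ - υ) ≤ r := (Nat.le_ceil _).trans (by exact_mod_cast (by omega : ⌈1 / (τ - υ)⌉₊ ≤ r))
    rw [div_le_iff₀ (by linarith)] at h5
    rw [div_le_iff₀ hr0]
    linarith
  · rw [div_div, le_div_iff₀ (by positivity)]
    rw [div_mul_eq_mul_div, div_le_one hf0] at hm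
    refine le_trans ?_ hm
    have h1 : (1 + 3 * (r : ℝ)) * (3 * r) * (r * 16) ≤ 192 * (r : ℝ) ^ 3 := by nlinarith [pow_pos hr0 2]
    have h2 : (r : ℝ) ^ 3 ≤ (G0 : ℝ) ^ 3 * (m : ℝ) ^ 6 := by
      rw [hrdef]
      push_cast
      rw [mul_pow]
      apply mul_le_mul_of_nonneg_left _ (by positivity)
      exact pow_le_pow_right₀ hm1r (by norm_num)
    have h3 : (0 : ℝ) < (1 / 2) ^ m := by positivity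
    calc (1 / 2) ^ m * ((1 + lm) * (1 + 3 * r) * (3 * r)) * (r * 16) =
        (1 / 2) ^ m * (1 + lm) * ((1 + 3 * (r : ℝ)) * (3 * r) * (r * 16)) := by ring
      _ ≤ (1 / 2) ^ m * (1 + lm) * (192 * (r : ℝ) ^ 3) := by gcongr
      _ ≤ (1 / 2) ^ m * (1 + lm) * (192 * ((G0 : ℝ) ^ 3 * (m : ℝ) ^ 6)) := by gcongr
      _ = _ := by ring

set_option maxHeartbeats 4000000 in
open Classical in
/-- **Families of sequences: a positive proportion of the `m` have an almost prime value.** -/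
theorem mainPG (c d g : ℕ) (hc : 1 ≤ c) (θ τ ζ υ lm S : ℝ) (R r0 : ℕ) (hζ : 0 < ζ) (h2 : 2 * ζ < τ)
    (h4 : τ ≤ 4 * ζ) (hζυ : ζ ≤ υ) (hυτ : υ < τ) (hlm : 0 < lm)
    (hJ : ∫ x in ζ..υ, (lm - lm / υ * x) / (τ - x) / x < Real.log (τ / ζ - 1) / τ)
    (hτθ : τ < θ) (hθ1 : θ ≤ 1) (hSg : S ≤ g + 1) (hr : 1 / lm + S / υ ≤ R + 1) :
    ∃ (r : ℕ) (κ0 ηM : ℝ), 2 ≤ r ∧ r0 ≤ r ∧ 0 < κ0 ∧ 0 < ηM ∧ ∀ B : ℕ, ∀ᶠ X : ℕ in atTop, ∀ Z L : ℕ,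
      (X : ℝ) ^ θ ≤ L →
      ∀ (F : ℕ → ℕ → ℕ) (α : ℕ → ℝ) (J : Finset ℕ) (bad : ℕ → ℕ → Prop),
        FamG F α J bad c d ⌊(X : ℝ) ^ (1 / (r : ℝ))⌋₊ →
        (∀ j ∈ J, Mer (pr X (1 / (r : ℝ)) υ) (tt X) (gp (F j)) (1 / (r : ℝ)) υ ηM) →
        (∀ j ∈ J, ∀ n ∈ Ioc Z (Z + L), 1 ≤ F j n ∧ ((F j n : ℕ) : ℝ) ≤ (X : ℝ) ^ S) →
        (∀ j ∈ J, ∀ p : ℕ, p.Prime → ⌊(X : ℝ) ^ (1 / (r : ℝ))⌋₊ < p →
          (((Ioc Z (Z + L)).filter (fun n => p ^ 2 ∣ F j n)).card : ℝ) ≤ c * ((L : ℝ) / (p : ℝ) ^ 2 + 1)) →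
        (J.card : ℝ) ≤ Real.log X ^ B →
        0 < V1G F α J ⌊(X : ℝ) ^ (1 / (r : ℝ))⌋₊ →
        ∑ j ∈ J, α j ≤ Real.log X ^ B * V1G F α J ⌊(X : ℝ) ^ (1 / (r : ℝ))⌋₊ →
        (κ0 * (V1G F α J ⌊(X : ℝ) ^ (1 / (r : ℝ))⌋₊ / 8)) ^ 2 * L ≤
          ((GoodN F α J X R Z L ζ (κ0 * (V1G F α J ⌊(X : ℝ) ^ (1 / (r : ℝ))⌋₊ / 8))).card : ℝ) *
          (2 * d * S2G F α J ⌊(X : ℝ) ^ (1 / (r : ℝ))⌋₊ + 2 * V2G F α J bad ⌊(X : ℝ) ^ (1 / (r : ℝ))⌋₊ +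
            V1G F α J ⌊(X : ℝ) ^ (1 / (r : ℝ))⌋₊ ^ 2) := by
  have hτ0 : 0 < τ := by linarith
  have hτ1 : τ ≤ 1 := by linarith
  have hυ0 : 0 < υ := by linarith
  have hυ1 : υ ≤ 1 := by linarith
  have hθ0 : 0 < θ := by linarith
  have hlmυ : 0 ≤ lm / υ := by positivity
  obtain ⟨f0, F0, hf0, hF0, HL⟩ := lsw4 τ ζ υ lm (lm / υ) hζ h2 h4 hτ1 hζυ hυτ hlm.le hlmυ
    (by rw [div_mul_cancel₀ _ hυ0.ne']) hJ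
  obtain ⟨C0a, x0a, hC0a, Hfst⟩ := firstX c hc
  obtain ⟨C0b, x0b, hC0b, Hcnt⟩ := countG c hc
  obtain ⟨C0, hC0⟩ : ∃ C0 : ℕ, C0 = C0a + C0b := ⟨_, rfl⟩
  obtain ⟨m, r, G0, hmC, hm1, hr2, hrdef, hG1, hG2, hr0r, hrζ, hrτ, hm⟩ :=
    exists_cstP θ τ ζ υ lm f0 C0 r0 hζ hυτ hτθ hlm hf0
  obtain ⟨A, hA⟩ : ∃ A : ℝ, A = (1 + lm) * (1 + 3 * r) := ⟨_, rfl⟩
  obtain ⟨κ0, hκ0⟩ : ∃ κ0 : ℝ, κ0 = f0 / r := ⟨_, rfl⟩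
  obtain ⟨R0, hR0⟩ : ∃ R0 : ℕ, R0 = 2 * (g + 1) * r := ⟨_, rfl⟩
  obtain ⟨γ, hγ⟩ : ∃ γ : ℝ, γ = θ - τ := ⟨_, rfl⟩
  have hrr0 : (0 : ℝ) < r := by exact_mod_cast (by omega : 0 < r)
  have hκ00 : 0 < κ0 := by rw [hκ0]; positivity
  have hA0 : 0 < A := by rw [hA]; positivity
  have hγ0 : 0 < γ := by rw [hγ]; linarith
  obtain ⟨ηL, hηL, HY⟩ := HL (1 / (r : ℝ)) (by positivity) hrζ hrτ
  obtain ⟨ηM, hηM⟩ : ∃ ηM : ℝ, ηM = min ηL 1 / 2 := ⟨_, rfl⟩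
  have hηm0 : 0 < min ηL 1 := lt_min hηL one_pos
  refine ⟨r, κ0, ηM, hr2, hr0r, hκ00, by rw [hηM]; positivity, ?_⟩
  intro B
  have hc0 : (0 : ℝ) < c := by exact_mod_cast hc
  have ev1 := merF c r hr2 υ (min ηL 1) hηm0
  have ev2 := Pool.Agent.Y879.GL.level_ok r hr2
  have ev3 := y_ge r hr2 (x0a + x0b + 2)
  have ev4 := logpow_rpow (2 * B) (64 * c / κ0) ζ (by positivity) hζ
  have ev5 := logpow_rpow (2 * B) (64 * c / κ0 + d + 1) (γ / 2) (by positivity) (by positivity)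
  have ev6 := logpow_rpow B (32 + 16 * (A * (c : ℝ) ^ R0) / κ0) (γ / 2) (by positivity) (by positivity)
  have ev8 := logpow_rpow 1 4 ζ (by positivity) hζ
  filter_upwards [ev1, ev2, ev3, ev4, ev5, ev6, ev8, eventually_ge_atTop 2] with
    X hmer hlev hyg hE4 hE5 hE6 hE8 hX2
  clear ev1 ev2 ev3 ev4 ev5 ev6 ev8 HL
  obtain ⟨g1, g2, g3, g4, g5⟩ := hlev
  obtain ⟨y, hy⟩ : ∃ y, y = ⌊(X : ℝ) ^ (1 / (r : ℝ))⌋₊ := ⟨_, rfl⟩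
  rw [← hy] at hmer g1 g2 g3 g4 hyg ⊢
  intro Z L hXL F α J bad hF hM hS hsq hJc hV10 hαB
  have hX1 : (1 : ℝ) ≤ X := by exact_mod_cast (by omega : 1 ≤ X)
  have hX0 : (0 : ℝ) < X := by linarith
  have hy1 : 1 ≤ y := by omega
  have hyr0 : (0 : ℝ) < y := by exact_mod_cast hy1
  have hlX : 0 ≤ Real.log X := Real.log_nonneg hX1
  have hpow1 : y ^ (16 * (C0a * m)) ≤ y ^ (16 * (C0 * m)) := by
    apply Nat.pow_le_pow_right hy1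
    apply Nat.mul_le_mul_left
    apply Nat.mul_le_mul_right
    omega
  have hpow2 : y ^ (16 * (C0b * m)) ≤ y ^ (16 * (C0 * m)) := by
    apply Nat.pow_le_pow_right hy1
    apply Nat.mul_le_mul_left
    apply Nat.mul_le_mul_right
    omega
  have hyR0r : (X : ℝ) ^ (g + 1) ≤ (y : ℝ) ^ R0 := by
    rw [← Real.log_le_log_iff (by positivity) (by positivity), Real.log_pow, Real.log_pow]
    rw [div_le_iff₀ (by positivity)] at g2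
    rw [hR0]
    push_cast
    calc ((g : ℝ) + 1) * Real.log X ≤ ((g : ℝ) + 1) * (Real.log y * (2 * r)) :=
          mul_le_mul_of_nonneg_left g2 (by positivity)
      _ = _ := by ring
  have hDy : ⌊(X : ℝ) ^ τ⌋₊ ≤ y ^ R0 := by
    have a1 : ((⌊(X : ℝ) ^ τ⌋₊ : ℕ) : ℝ) ≤ (X : ℝ) ^ (g + 1) := by
      refine (Nat.floor_le (by positivity)).trans ?_
      calc (X : ℝ) ^ τ ≤ (X : ℝ) ^ (1 : ℝ) := Real.rpow_le_rpow_of_exponent_le hX1 hτ1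
        _ = (X : ℝ) ^ 1 := by rw [Real.rpow_one, pow_one]
        _ ≤ (X : ℝ) ^ (g + 1) := pow_le_pow_right₀ hX1 (by omega)
    exact_mod_cast a1.trans hyR0r
  obtain ⟨cU, cL, hb1, hb2, hb3, hb4⟩ := HY X hX2
  have hMerL : ∀ j ∈ J, Mer (pr X (1 / (r : ℝ)) υ) (tt X) (gg (F j) y) (1 / (r : ℝ)) υ (min ηL 1) := by
    intro j hj
    apply hmer (F j) (hF.per j hj)
    rw [← hηM]
    exact hM j hj
  have hMer1 : ∀ j ∈ J, Mer (pr X (1 / (r : ℝ)) υ) (tt X) (gg (F j) y) (1 / (r : ℝ)) υ 1 :=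
    fun j hj a b ha hab hb => (hMerL j hj a b ha hab hb).trans (min_le_right _ _)
  have hMer2 : ∀ j ∈ J, Mer (pr X (1 / (r : ℝ)) υ) (tt X) (gg (F j) y) (1 / (r : ℝ)) υ ηL :=
    fun j hj a b ha hab hb => (hMerL j hj a b ha hab hb).trans (min_le_left _ _)
  have h4ζ : 4 ≤ (X : ℝ) ^ ζ := by
    rw [pow_one] at hE8
    linarith
  have hb4' : ∀ j ∈ J, 1 / (r : ℝ) * f0 ≤ VV (pr X (1 / (r : ℝ)) υ) cL (gg (F j) y) := by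
    intro j hj
    exact (hb4 (gg (F j) y) (fun p _ => gg_nonneg (F j) y p) (hMer2 j hj)).1
  rw [pow_mul'] at hE4 hE5
  have hsqrt := sqrt_xx X r C0 m G0 γ (by omega) hγ0 hrdef hm1 hG1 (by rw [hγ]; exact hG2)
  rw [← hy] at hsqrt
  refine oneP F α J bad c d X y hF θ τ ζ υ lm S f0 A κ0 γ R r m R0 hζ hζυ hυτ hlm hτθ hθ1 hf0 hr2 hrζ hm1 hγ
    hA hκ0 hr Z L hX2 hy hXL cL (fun U => (hb1 U).2)
    (fun U hU hne => hb2 U hU (Or.inr hne)) (fun N => (hb3 N).1) hMer1 hb4' hS hsq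
    (V1G F α J y) (Real.log X ^ B) (√((y ^ (16 * (C0 * m)) : ℕ) : ℝ)) hV10 rfl (by positivity) hαB hJc
    (Real.sqrt_nonneg _) hsqrt
    (Hcnt m (by omega) (y ^ (16 * (C0 * m))) y (by omega) hpow2 F J hF.per Z L)
    (fun P a B1 hP ha hD hs h1 => Hfst m (by omega) (y ^ (16 * (C0 * m))) y (by omega) hy1 hpow1 F α J
      hF.per hF.α0 Z L R0 P a A B1 ⌊(X : ℝ) ^ τ⌋₊ hP ha hD hDy hs h1) (by rw [hA, hκ0]; exact hm) hE4 hE5 hE6 h4ζ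

/-- the parameters -/
lemma paramsP (g : ℕ) (hg : 1 ≤ g) (θ : ℝ) (R : ℕ) (hθ : 0 < θ) (hR : 1 / 8 + 25 * g / (24 * θ) < R) :
    ∃ τ S : ℝ, 8 / 9 * θ ≤ τ ∧ τ < θ ∧ (g : ℝ) < S ∧ 9 / 8 + S / (24 / 25 * τ) ≤ R + 1 := by
  obtain ⟨τ, S, h1, h2, h3, h4⟩ := params g hg (2 * θ) R (by positivity) (by
    refine lt_of_le_of_lt (le_of_eq ?_) hR
    congr 1
    congr 1
    ring)
  exact ⟨τ, S, by linarith, by linarith, h3, h4⟩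

open Classical in
/-- the parameters: `R` prime factors -/
theorem mainPR (c d g : ℕ) (hc : 1 ≤ c) (hg : 1 ≤ g) (θ : ℝ) (R r0 : ℕ) (hθ : 0 < θ) (hθ1 : θ ≤ 1)
    (hR : 1 / 8 + 25 * g / (24 * θ) < R) :
    ∃ (r : ℕ) (ζ υ S κ0 ηM : ℝ), 2 ≤ r ∧ r0 ≤ r ∧ 2 * θ / 9 ≤ ζ ∧ υ ≤ 1 ∧ (g : ℝ) < S ∧
      0 < κ0 ∧ 0 < ηM ∧
      ∀ B : ℕ, ∀ᶠ X : ℕ in atTop, ∀ Z L : ℕ,
      (X : ℝ) ^ θ ≤ L →
      ∀ (F : ℕ → ℕ → ℕ) (α : ℕ → ℝ) (J : Finset ℕ) (bad : ℕ → ℕ → Prop),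
        FamG F α J bad c d ⌊(X : ℝ) ^ (1 / (r : ℝ))⌋₊ →
        (∀ j ∈ J, Mer (pr X (1 / (r : ℝ)) υ) (tt X) (gp (F j)) (1 / (r : ℝ)) υ ηM) →
        (∀ j ∈ J, ∀ n ∈ Ioc Z (Z + L), 1 ≤ F j n ∧ ((F j n : ℕ) : ℝ) ≤ (X : ℝ) ^ S) →
        (∀ j ∈ J, ∀ p : ℕ, p.Prime → ⌊(X : ℝ) ^ (1 / (r : ℝ))⌋₊ < p →
          (((Ioc Z (Z + L)).filter (fun n => p ^ 2 ∣ F j n)).card : ℝ) ≤ c * ((L : ℝ) / (p : ℝ) ^ 2 + 1)) →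
        (J.card : ℝ) ≤ Real.log X ^ B →
        0 < V1G F α J ⌊(X : ℝ) ^ (1 / (r : ℝ))⌋₊ →
        ∑ j ∈ J, α j ≤ Real.log X ^ B * V1G F α J ⌊(X : ℝ) ^ (1 / (r : ℝ))⌋₊ →
        (κ0 * (V1G F α J ⌊(X : ℝ) ^ (1 / (r : ℝ))⌋₊ / 8)) ^ 2 * L ≤
          ((GoodN F α J X R Z L ζ (κ0 * (V1G F α J ⌊(X : ℝ) ^ (1 / (r : ℝ))⌋₊ / 8))).card : ℝ) *
          (2 * d * S2G F α J ⌊(X : ℝ) ^ (1 / (r : ℝ))⌋₊ + 2 * V2G F α J bad ⌊(X : ℝ) ^ (1 / (r : ℝ))⌋₊ +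
            V1G F α J ⌊(X : ℝ) ^ (1 / (r : ℝ))⌋₊ ^ 2) := by
  obtain ⟨τ, S', h1, h2, h3, h4⟩ := paramsP g hg θ R hθ hR
  have hτ : 0 < τ := by linarith
  obtain ⟨S, hS⟩ : ∃ S, S = min S' (g + 1) := ⟨_, rfl⟩
  have hSS : S ≤ S' := by rw [hS]; exact min_le_left _ _
  have hSg : S ≤ g + 1 := by rw [hS]; exact min_le_right _ _
  have hgS : (g : ℝ) < S := by rw [hS]; exact lt_min h3 (by linarith)
  have hJ := Pool.Agent.Y882.KW.cond_A τ (8 / 9) hτ (by norm_num) (by norm_num)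
  have h4' : 1 / (8 / 9 : ℝ) + S / (24 / 25 * τ) ≤ R + 1 := by
    have : S / (24 / 25 * τ) ≤ S' / (24 / 25 * τ) := div_le_div_of_nonneg_right hSS (by positivity)
    norm_num at h4 this ⊢
    linarith
  obtain ⟨r, κ0, ηM, hr2, hr0, hκ0, hηM, hmain⟩ := mainPG c d g hc θ τ (τ / 4) (24 / 25 * τ) (8 / 9) S R r0
    (by positivity) (by linarith) (by linarith) (by linarith) (by linarith) (by norm_num) hJ h2 hθ1 hSg h4'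
  exact ⟨r, τ / 4, 24 / 25 * τ, S, κ0, ηM, hr2, hr0, by linarith, by linarith, hgS, hκ0, hηM, hmain⟩

end Pool.Agent.L0h41.PP
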