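import Pool.Agent.L0h41.PP.C
import Pool.Agent.L0h41.QN.W1

set_option autoImplicit false

/-!
# Positive proportion: the family `n² + h`
-/

namespace Pool.Agent.L0h41.PP

open Finset Filter
open Pool.Agent.W123.RP Pool.Agent.H373R2.T7 Pool.Agent.W123.RU Pool.Agent.TH464.PO Pool.Agent.TH464.PW
open Pool.Agent.W23.DC Pool.Agent.Y882 Pool.Agent.Y882.KW Pool.Agent.Y882.SI Pool.Agent.Y882.PX
open Pool.Agent.Y879.AP
open Pool.Agent.L0h41.LW Pool.Agent.L0h41.QN

/-- the elementary inequality -/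
lemma min_alg (x : ℝ) (hx : 0 < x) : min x 1 / 11 ≤ x ^ 2 / (2 * x + 9 * x ^ 2) := by
  rw [div_le_div_iff₀ (by norm_num) (by positivity)]
  rcases le_total x 1 with h | h
  · rw [min_eq_left h]
    nlinarith [mul_nonneg hx.le (sub_nonneg.2 h), mul_pos hx hx, mul_nonneg (mul_pos hx hx).le (sub_nonneg.2 h)]
  · rw [min_eq_right h]
    nlinarith

set_option maxHeartbeats 4000000 in
open Classical in
/-- **Almost primes in the windows `(n², n² + T]` for a positive proportion of the `n`.** -/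
theorem mainSqP (θ : ℝ) (R : ℕ) (hθ : 0 < θ) (hθ1 : θ ≤ 1) (hR : 1 / 8 + 25 / (12 * θ) < R) :
    ∃ (κ : ℝ) (T0 : ℕ), 0 < κ ∧ 1 ≤ T0 ∧ ∀ B : ℕ, ∀ᶠ X : ℕ in atTop, ∀ Z L T : ℕ, (X : ℝ) ^ θ ≤ L → Z + L ≤ X →
      T0 ≤ T → (T : ℝ) ≤ Real.log X ^ B →
      κ * min 1 (T / Real.log X) * L ≤ (((Ioc Z (Z + L)).filter (fun n => 1 ≤ Nsq n R T ((X : ℝ) ^ (θ / 5)) ∧
        κ * (T / Real.log X) ≤ Nsq n R T ((X : ℝ) ^ (θ / 5)))).card : ℝ) := by
  obtain ⟨r, ζ, υ, S, κ0, ηM, hr2, -, hζ, hυ, hS, hκ0, hηM, hmain⟩ :=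
    mainPR 2 1 2 (by norm_num) (by norm_num) θ R 2 hθ hθ1 (by
      refine lt_of_le_of_lt (le_of_eq ?_) hR
      push_cast
      field_simp
      ring)
  have hr0 : (0 : ℝ) < r := by exact_mod_cast (by omega : 0 < r)
  have hS2 : (2 : ℝ) < S := by exact_mod_cast hS
  obtain ⟨cz, Cz, hcz, hCz, hVz⟩ := Vz_bounds
  obtain ⟨w, T0, havg⟩ := avgSq (1 / 100) (by norm_num)
  obtain ⟨κ, hκ⟩ : ∃ κ, κ = min (κ0 * cz / 16) (κ0 ^ 2 / 704 * min (cz / 2) 1) := ⟨_, rfl⟩
  have hκpos : 0 < κ := by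
    rw [hκ]
    apply lt_min (by positivity)
    have : 0 < min (cz / 2) 1 := lt_min (by positivity) one_pos
    positivity
  have hκ1 : κ ≤ κ0 * cz / 16 := by rw [hκ]; exact min_le_left _ _
  have hκ2 : κ ≤ κ0 ^ 2 / 704 * min (cz / 2) 1 := by rw [hκ]; exact min_le_right _ _
  refine ⟨κ, T0 + 1, hκpos, by omega, ?_⟩
  intro B
  obtain ⟨B1, hB1⟩ : ∃ B1, B1 = B + 2 := ⟨_, rfl⟩
  obtain ⟨W1, hW1⟩ : ∃ W1, W1 = B + 1 := ⟨_, rfl⟩
  have tl : Tendsto (fun X : ℕ => Real.log (X : ℝ)) atTop atTop :=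
    Real.tendsto_log_atTop.comp tendsto_natCast_atTop_atTop
  have tp : ∀ e : ℝ, 0 < e → Tendsto (fun X : ℕ => (X : ℝ) ^ e) atTop atTop := fun e he =>
    (tendsto_rpow_atTop he).comp tendsto_natCast_atTop_atTop
  have e1 := hmain B1
  have e2 := merU W1 (1 / (r : ℝ)) υ ηM (by positivity) hυ hηM
  have e4 := tl.eventually_ge_atTop ((T0 : ℝ) + 4 + 2 / cz)
  have e5 := (tp (1 / (r : ℝ)) (by positivity)).eventually_ge_atTop ((w : ℝ) + 5)
  have e6 := logpow_rpow (B + 1) 9 (1 / (r : ℝ)) (by positivity) (by positivity)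
  have e8 := logpow_rpow (B + 1) 1 (S - 2) (by norm_num) (by linarith)
  filter_upwards [e1, e2, e4, e5, e6, e8, eventually_ge_atTop 3] with X f1 f2 f4 f5 f6 f8 f12
  clear e1 e2 e4 e5 e6 e8
  intro Z L T hXL hZL hT1 hT2
  obtain ⟨y, hy⟩ : ∃ y, y = ⌊(X : ℝ) ^ (1 / (r : ℝ))⌋₊ := ⟨_, rfl⟩
  rw [← hy] at f1
  have hX0 : (0 : ℝ) < X := by exact_mod_cast (by omega : 0 < X)
  have hX1 : (1 : ℝ) ≤ X := by exact_mod_cast (by omega : 1 ≤ X)
  have hcz2 : 0 < 2 / cz := by positivity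
  have hT00 : (0 : ℝ) ≤ T0 := Nat.cast_nonneg _
  have hlX : 4 ≤ Real.log X := by linarith
  have hlX0 : 0 < Real.log X := by linarith
  have hlX1 : 1 ≤ Real.log X := by linarith
  have hTT0 : T0 ≤ T := by omega
  have hT11 : (1 : ℝ) ≤ T := by exact_mod_cast (by omega : 1 ≤ T)
  have hTpos : (0 : ℝ) < T := by linarith
  have hyX : y ≤ X := by
    rw [hy]
    apply Nat.floor_le_of_le
    calc (X : ℝ) ^ (1 / (r : ℝ)) ≤ (X : ℝ) ^ (1 : ℝ) := by
          apply Real.rpow_le_rpow_of_exponent_le hX1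
          rw [div_le_one hr0]
          exact_mod_cast (by omega : 1 ≤ r)
      _ = X := Real.rpow_one _
  have hwy : w + 5 ≤ y := by
    rw [hy]
    apply Nat.le_floor
    push_cast
    exact f5
  -- the density
  have hVy := (hVz y (by omega)).1
  have hyr : (1 : ℝ) < y := by exact_mod_cast (by omega : 1 < y)
  have hly : 0 < Real.log y := Real.log_pos hyr
  have hlyX : Real.log y ≤ Real.log X := Real.log_le_log (by linarith) (by exact_mod_cast hyX)
  have hVlow : cz / Real.log X ≤ Vz y := by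
    refine le_trans ?_ hVy
    exact div_le_div_of_nonneg_left hcz.le hly hlyX
  obtain ⟨h1, h1', h2⟩ := havg T hTT0 y (by omega)
  have hTV : T * (cz / Real.log X) ≤ T * Vz y := mul_le_mul_of_nonneg_left hVlow hTpos.le
  have hTVpos : 0 < T * (cz / Real.log X) := by positivity
  have hVG : T * (cz / Real.log X) / 2 ≤ V1G Fh (fun _ => 1) (Icc 1 T) y := by
    have : (1 / 2 : ℝ) * (T * Vz y) ≤ (1 - 1 / 100) * (T * Vz y) :=
      mul_le_mul_of_nonneg_right (by norm_num) (by linarith)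
    linarith
  have hVG0 : 0 < V1G Fh (fun _ => 1) (Icc 1 T) y := by linarith
  -- the sizes
  have hTB : (T : ℝ) ≤ Real.log X ^ B1 := hT2.trans (pow_le_pow_right₀ hlX1 (by omega))
  have hT4 : 4 * (T : ℝ) ≤ Real.log X ^ (B + 1) := by
    rw [pow_succ, mul_comm]
    exact mul_le_mul hT2 hlX (by norm_num) (by positivity)
  have hTy : 1 + 4 * T ≤ y := by
    rw [hy]
    apply Nat.le_floor
    push_cast
    refine le_trans ?_ f6
    have : (1 : ℝ) ≤ Real.log X ^ (B + 1) := one_le_pow₀ hlX1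
    linarith
  have hdisc : ∀ h ∈ Icc 1 T, |((((0 : ℤ) ^ 2 - 4 * 1 * (h : ℤ) : ℤ)) : ℝ)| ≤ Real.log X ^ W1 := by
    intro h hh
    have h3 : (h : ℝ) ≤ T := by exact_mod_cast (mem_Icc.1 hh).2
    have h4 : (0 : ℝ) ≤ h := Nat.cast_nonneg _
    push_cast
    rw [abs_le]
    have h5 : Real.log X ^ W1 = Real.log X ^ (B + 1) := by rw [hW1]
    rw [h5]
    constructor <;> nlinarith
  have key := f1 Z L hXL Fh (fun _ => 1) (Icc 1 T) eqB (by
      refine ⟨?_, fun _ _ => zero_le_one, ?_, ?_, ?_⟩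
      · intro h _
        refine ⟨fun p n => perF 1 0 h p n (n % p) (Nat.mod_modEq n p).symm, fun p hp => ?_⟩
        by_cases hp2 : p = 2
        · rw [hp2]
          have := nuB_le (DQ (Fh h)) 2
          exact this
        · have h3 := nuB_leq 1 0 h p hp hp2 (by
            rintro ⟨h4, -, -⟩
            have h5 : p ∣ 1 := by exact_mod_cast h4
            exact hp.one_lt.ne' (Nat.dvd_one.1 h5))
          have h4 := (jac_le (0 ^ 2 - 4 * 1 * (h : ℤ)) p).1
          have h5 : (nuB (DQ (Fq 1 0 h)) p : ℝ) ≤ 2 := by linarith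
          exact_mod_cast h5
      · intro h hh h' hh' hne n p hp hyp hd hd'
        have hne : ¬ h = h' := hne
        rw [Fh_eq] at hd hd'
        rw [mem_Icc] at hh hh'
        have hd2 : (p : ℤ) ∣ (h : ℤ) - h' := by
          have a1 : (p : ℤ) ∣ ((n ^ 2 + h : ℕ) : ℤ) := by exact_mod_cast hd
          have a2 : (p : ℤ) ∣ ((n ^ 2 + h' : ℕ) : ℤ) := by exact_mod_cast hd'
          have a3 := dvd_sub a1 a2
          have e : ((n ^ 2 + h : ℕ) : ℤ) - ((n ^ 2 + h' : ℕ) : ℤ) = (h : ℤ) - h' := by push_cast; ring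
          rwa [e] at a3
        have h3 := Nat.le_of_dvd (Int.natAbs_pos.2 (by omega)) (Int.natCast_dvd.1 hd2)
        omega
      · intro h _
        exact card_le_one.2 (fun a ha b hb => (mem_filter.1 ha).2.symm.trans (mem_filter.1 hb).2)
      · intro h _
        exact card_le_one.2 (fun a ha b hb => (mem_filter.1 ha).2.trans (mem_filter.1 hb).2.symm)) (by
      intro h hh
      apply f2 1 0 h one_ne_zero _ (disc_h h (mem_Icc.1 hh).1) (hdisc h hh)
      have hw0 : (0 : ℝ) ≤ w := Nat.cast_nonneg _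
      have e : (((2 * (1 : ℤ)).natAbs : ℕ) : ℝ) = 2 := by norm_num
      rw [e]
      linarith) (by
      intro h hh n hn
      rw [Fh_eq]
      rw [mem_Icc] at hh
      rw [mem_Ioc] at hn
      refine ⟨by omega, ?_⟩
      have q1 : (n : ℝ) ≤ X := by exact_mod_cast (by omega : n ≤ X)
      have q2 : (n : ℝ) ^ 2 ≤ (X : ℝ) ^ 2 := pow_le_pow_left₀ (Nat.cast_nonneg _) q1 2
      have q3 : (h : ℝ) ≤ T := by exact_mod_cast hh.2
      have q4 : (T : ℝ) ≤ (X : ℝ) ^ 2 * (Real.log X ^ (B + 1) - 1) := by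
        have : (1 : ℝ) ≤ (X : ℝ) ^ 2 := one_le_pow₀ hX1
        have q5 : (T : ℝ) ≤ Real.log X ^ (B + 1) - 1 := by
          have : 1 ≤ (T : ℝ) := by linarith
          linarith
        nlinarith
      push_cast
      calc (n : ℝ) ^ 2 + h ≤ (X : ℝ) ^ 2 * Real.log X ^ (B + 1) := by linarith
        _ ≤ (X : ℝ) ^ 2 * (X : ℝ) ^ (S - 2) := by
            apply mul_le_mul_of_nonneg_left _ (by positivity)
            linarith
        _ = (X : ℝ) ^ S := by
            rw [← Real.rpow_natCast (X : ℝ) 2, ← Real.rpow_add hX0]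
            congr 1
            push_cast
            ring) (by
      intro h hh p hp hyp
      exact sq_q 1 0 h one_ne_zero (disc_h h (mem_Icc.1 hh).1) p hp (by
        have := (mem_Icc.1 hh).2
        omega) Z L) (by
      rw [Nat.card_Icc, Nat.add_sub_cancel]
      exact hTB) hVG0 (by
      rw [sum_const, nsmul_eq_mul, mul_one, Nat.card_Icc, Nat.add_sub_cancel]
      have q1 : 2 / cz ≤ Real.log X := by linarith
      have q2 : (T : ℝ) ≤ Real.log X ^ 2 * (T * (cz / Real.log X) / 2) := by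
        have e : Real.log X ^ 2 * (T * (cz / Real.log X) / 2) = T * (Real.log X * (cz / 2)) := by
          field_simp
        rw [e]
        apply le_mul_of_one_le_right hTpos.le
        rw [div_le_iff₀ hcz] at q1
        linarith
      have q3 : Real.log X ^ 2 ≤ Real.log X ^ B1 := pow_le_pow_right₀ hlX1 (by omega)
      calc (T : ℝ) ≤ Real.log X ^ 2 * (T * (cz / Real.log X) / 2) := q2
        _ ≤ Real.log X ^ B1 * V1G Fh (fun _ => 1) (Icc 1 T) y := mul_le_mul q3 hVG (by positivity) (by positivity))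
  obtain ⟨x, hx⟩ : ∃ x, x = V1G Fh (fun _ => 1) (Icc 1 T) y := ⟨_, rfl⟩
  have hS2e : S2G Fh (fun _ => 1) (Icc 1 T) y = x := by
    rw [hx]
    unfold S2G V1G
    apply sum_congr rfl
    intro h _
    rw [one_pow]
  rw [← hx] at key hVG hVG0 h1
  rw [hS2e] at key
  have hV2 : V2G Fh (fun _ => 1) (Icc 1 T) eqB y ≤ 4 * x ^ 2 := by
    refine h2.trans ?_
    have q0 : 0 ≤ T * Vz y := by linarith
    have q1 : ((1 - 1 / 100) * (T * Vz y)) ^ 2 ≤ x ^ 2 :=
      pow_le_pow_left₀ (mul_nonneg (by norm_num) q0) h1 2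
    nlinarith [sq_nonneg (T * Vz y)]
  obtain ⟨N, hN⟩ : ∃ N : ℝ, N = ((GoodN Fh (fun _ => 1) (Icc 1 T) X R Z L ζ (κ0 * (x / 8))).card : ℝ) := ⟨_, rfl⟩
  rw [← hN] at key
  have hN0 : 0 ≤ N := by rw [hN]; exact Nat.cast_nonneg _
  have hNlow : κ0 ^ 2 / 704 * min x 1 * L ≤ N := by
    have k1 : (κ0 * (x / 8)) ^ 2 * L ≤ N * (2 * x + 9 * x ^ 2) := by
      refine key.trans ?_
      apply mul_le_mul_of_nonneg_left _ hN0
      push_cast
      linarith
    have k2 : 0 < 2 * x + 9 * x ^ 2 := by positivity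
    rw [← div_le_iff₀ k2] at k1
    refine le_trans ?_ k1
    have k3 := min_alg x hVG0
    have e : (κ0 * (x / 8)) ^ 2 * L / (2 * x + 9 * x ^ 2) =
      κ0 ^ 2 / 64 * L * (x ^ 2 / (2 * x + 9 * x ^ 2)) := by ring
    rw [e]
    have e2 : κ0 ^ 2 / 704 * min x 1 * (L : ℝ) = κ0 ^ 2 / 64 * L * (min x 1 / 11) := by ring
    rw [e2]
    exact mul_le_mul_of_nonneg_left k3 (by positivity)
  have hmin : min (cz / 2) 1 * min 1 (T / Real.log X) ≤ min x 1 := by
    have a0 : 0 < min (cz / 2) 1 := lt_min (by positivity) one_pos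
    have a1 : min 1 ((T : ℝ) / Real.log X) ≤ T / Real.log X := min_le_right _ _
    have a2 : min 1 ((T : ℝ) / Real.log X) ≤ 1 := min_le_left _ _
    have a3 : 0 < min 1 ((T : ℝ) / Real.log X) := lt_min one_pos (by positivity)
    apply le_min
    · calc min (cz / 2) 1 * min 1 (T / Real.log X) ≤ (cz / 2) * (T / Real.log X) :=
            mul_le_mul (min_le_left _ _) a1 a3.le (by positivity)
        _ = T * (cz / Real.log X) / 2 := by ring
        _ ≤ x := hVG
    · calc min (cz / 2) 1 * min 1 (T / Real.log X) ≤ 1 * 1 :=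
            mul_le_mul (min_le_right _ _) a2 a3.le (by norm_num)
        _ = 1 := by norm_num
  have hfin : κ * min 1 (T / Real.log X) * L ≤ N := by
    refine le_trans ?_ hNlow
    have a3 : 0 < min 1 ((T : ℝ) / Real.log X) := lt_min one_pos (by positivity)
    calc κ * min 1 (T / Real.log X) * L ≤ (κ0 ^ 2 / 704 * min (cz / 2) 1) * min 1 (T / Real.log X) * L := by
          gcongr
      _ = κ0 ^ 2 / 704 * (min (cz / 2) 1 * min 1 (T / Real.log X)) * L := by ring
      _ ≤ κ0 ^ 2 / 704 * min x 1 * L := by gcongr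
  refine hfin.trans ?_
  rw [hN]
  have hh : (GoodN Fh (fun _ => 1) (Icc 1 T) X R Z L ζ (κ0 * (x / 8))) ⊆
      (Ioc Z (Z + L)).filter (fun n => 1 ≤ Nsq n R T ((X : ℝ) ^ (θ / 5)) ∧
        κ * (T / Real.log X) ≤ Nsq n R T ((X : ℝ) ^ (θ / 5))) := by
    intro n hn
    unfold GoodN at hn
    rw [mem_filter] at hn ⊢
    refine ⟨hn.1, ?_⟩
    have q0 := hn.2
    rw [sum_const, nsmul_eq_mul, mul_one] at q0
    have q1 : ((GoodG Fh (Icc 1 T) X R n ζ).card : ℝ) ≤ Nsq n R T ((X : ℝ) ^ (θ / 5)) := by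
      exact_mod_cast GoodG_le X R n T ζ _ (Real.rpow_le_rpow_of_exponent_le hX1 (by linarith))
    have q2 : 0 < κ0 * (x / 8) := by positivity
    have q3 : (0 : ℝ) < Nsq n R T ((X : ℝ) ^ (θ / 5)) := by linarith
    refine ⟨by exact_mod_cast q3, ?_⟩
    refine le_trans ?_ (q0.trans q1)
    have q4 := mul_le_mul_of_nonneg_left hVG hκ0.le
    calc κ * (T / Real.log X) ≤ κ0 * cz / 16 * (T / Real.log X) :=
          mul_le_mul_of_nonneg_right hκ1 (by positivity)
      _ = κ0 * (T * (cz / Real.log X) / 2) / 8 := by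
          field_simp
          ring
      _ ≤ κ0 * x / 8 := by linarith
      _ = κ0 * (x / 8) := by ring
  exact_mod_cast card_le_card hh

end Pool.Agent.L0h41.PP
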